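import Pool.Agent.helper65.GD.Spec

set_option autoImplicit false

namespace Pool.Agent.GD

open Finset

theorem COV_sub {N : ℕ} (w : Fin N → ℝ) (g h : Fin N → ℂ) (A B : ℂ) (hw : ∑ l, (w l : ℂ) = 1)
    (hg : ∑ l, (w l : ℂ) * g l = A) (hh : ∑ l, (w l : ℂ) * h l = B) :
    ∑ l, (w l : ℂ) * ((g l - A) * (h l - B)) = ∑ l, (w l : ℂ) * (g l * h l) - A * B := by
  have h1 : ∀ l, (w l : ℂ) * ((g l - A) * (h l - B)) =
      (w l : ℂ) * (g l * h l) - ((w l : ℂ) * g l) * B - A * ((w l : ℂ) * h l) + (w l : ℂ) * (A * B) := by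
    intro l; ring
  rw [Finset.sum_congr rfl fun l _ => h1 l, Finset.sum_add_distrib, Finset.sum_sub_distrib,
    Finset.sum_sub_distrib, ← Finset.sum_mul, ← Finset.sum_mul, ← Finset.mul_sum, hg, hh, hw]
  ring

/-- expansion of the mean of a product -/
theorem COV_exp {N : ℕ} (w : Fin N → ℝ) (hw : ∑ l, (w l : ℂ) = 1) (G H : ℕ → ℂ) (k i : ℕ)
    (X Y : Fin N → ℕ → ℂ) :
    ∑ l, (w l : ℂ) * ((G k + 2 * ∑ m ∈ range k, X l (k - m) * G m) *
      (H i + 2 * ∑ m ∈ range i, Y l (i - m) * H m)) =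
    G k * H i + 2 * H i * ∑ m ∈ range k, (∑ l, (w l : ℂ) * X l (k - m)) * G m +
      2 * G k * ∑ m ∈ range i, (∑ l, (w l : ℂ) * Y l (i - m)) * H m +
      4 * ∑ m ∈ range k, ∑ r ∈ range i, (∑ l, (w l : ℂ) * (X l (k - m) * Y l (i - r))) * G m * H r := by
  have h1 : ∀ l, (w l : ℂ) * ((G k + 2 * ∑ m ∈ range k, X l (k - m) * G m) *
      (H i + 2 * ∑ m ∈ range i, Y l (i - m) * H m)) =
      (w l : ℂ) * (G k * H i) + 2 * H i * ((w l : ℂ) * ∑ m ∈ range k, X l (k - m) * G m) +
      2 * G k * ((w l : ℂ) * ∑ m ∈ range i, Y l (i - m) * H m) +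
      4 * ((w l : ℂ) * ((∑ m ∈ range k, X l (k - m) * G m) * ∑ m ∈ range i, Y l (i - m) * H m)) := by
    intro l; ring
  rw [Finset.sum_congr rfl fun l _ => h1 l, Finset.sum_add_distrib, Finset.sum_add_distrib,
    Finset.sum_add_distrib, ← Finset.sum_mul, hw, one_mul, ← Finset.mul_sum, ← Finset.mul_sum,
    ← Finset.mul_sum]
  have h2 : ∑ l, (w l : ℂ) * ∑ m ∈ range k, X l (k - m) * G m =
      ∑ m ∈ range k, (∑ l, (w l : ℂ) * X l (k - m)) * G m := by
    simp_rw [Finset.mul_sum, Finset.sum_mul]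
    rw [Finset.sum_comm]
    apply Finset.sum_congr rfl
    intro m _
    apply Finset.sum_congr rfl
    intro l _
    ring
  have h3 : ∑ l, (w l : ℂ) * ∑ m ∈ range i, Y l (i - m) * H m =
      ∑ m ∈ range i, (∑ l, (w l : ℂ) * Y l (i - m)) * H m := by
    simp_rw [Finset.mul_sum, Finset.sum_mul]
    rw [Finset.sum_comm]
    apply Finset.sum_congr rfl
    intro m _
    apply Finset.sum_congr rfl
    intro l _
    ring
  have h4 : ∑ l, (w l : ℂ) * ((∑ m ∈ range k, X l (k - m) * G m) * ∑ m ∈ range i, Y l (i - m) * H m) =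
      ∑ m ∈ range k, ∑ r ∈ range i, (∑ l, (w l : ℂ) * (X l (k - m) * Y l (i - r))) * G m * H r := by
    have h5 : ∀ l, (w l : ℂ) * ((∑ m ∈ range k, X l (k - m) * G m) * ∑ m ∈ range i, Y l (i - m) * H m) =
        ∑ m ∈ range k, ∑ r ∈ range i, (w l : ℂ) * (X l (k - m) * Y l (i - r)) * G m * H r := by
      intro l
      rw [Finset.sum_mul_sum, Finset.mul_sum]
      apply Finset.sum_congr rfl
      intro m _
      rw [Finset.mul_sum]
      apply Finset.sum_congr rfl
      intro r _
      ring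
    rw [Finset.sum_congr rfl fun l _ => h5 l, Finset.sum_comm]
    apply Finset.sum_congr rfl
    intro m _
    rw [Finset.sum_comm]
    apply Finset.sum_congr rfl
    intro r _
    rw [Finset.sum_mul, Finset.sum_mul]
  rw [h2, h3, h4]

theorem COV (hEGM : EGM_stmt) (hIDA : IDA_stmt) (hIDB : IDB_stmt) : COV_stmt := by
  intro p k i N w x G H hp hk hi hat hG hH
  obtain ⟨hw0, hw1, hx1⟩ := hat
  have hw : ∑ l, (w l : ℂ) = 1 := by exact_mod_cast hw1
  have hpC : (p : ℂ) ≠ 0 := by exact_mod_cast (by omega : p ≠ 0)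
  have hpkC : (p : ℂ) + k ≠ 0 := by exact_mod_cast (by omega : p + k ≠ 0)
  have hEg : ∑ l, (w l : ℂ) * pol G k (x l) = ((p : ℂ) + k) / p * G k := by
    have h := hEGM (2 * p) N w x G k ⟨hw0, hw1, hx1⟩ hG
    rw [div_mul_eq_mul_div, eq_div_iff hpC]
    linear_combination h / 2
  have hEh : ∑ l, (w l : ℂ) * pol H i (x l) = ((p : ℂ) - i) / p * H i := by
    have h := hEGM (-(2 * p)) N w x H i ⟨hw0, hw1, hx1⟩ hH
    rw [div_mul_eq_mul_div, eq_div_iff hpC]
    linear_combination -h / 2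
  have hGk : (k : ℂ) * G k = 2 * p * ∑ m ∈ range k, mom w x (k - m) * G m := hG.2 k
  have hHi : (i : ℂ) * H i = -(2 * p) * ∑ m ∈ range i, mom w x (i - m) * H m := hH.2 i
  have hmom0 : mom w x 0 = 1 := by
    unfold mom
    rw [Finset.sum_congr rfl fun l _ => by rw [pow_zero, mul_one], hw]
  constructor
  · rw [COV_sub w _ _ _ _ hw hEg hEh]
    have hexp := COV_exp w hw G H k i (fun l m => x l ^ m) (fun l m => x l ^ m)
    have h1 : ∑ l, (w l : ℂ) * (pol G k (x l) * pol H i (x l)) =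
        ∑ l, (w l : ℂ) * ((G k + 2 * ∑ m ∈ range k, x l ^ (k - m) * G m) *
      (H i + 2 * ∑ m ∈ range i, x l ^ (i - m) * H m)) := rfl
    rw [h1, hexp]
    have h2 : ∑ m ∈ range k, ∑ r ∈ range i, (∑ l, (w l : ℂ) * (x l ^ (k - m) * x l ^ (i - r))) * G m * H r =
        ∑ m ∈ range k, ∑ r ∈ range i, mom w x ((k - m) + (i - r)) * G m * H r := by
      apply Finset.sum_congr rfl
      intro m _
      apply Finset.sum_congr rfl
      intro r _
      unfold mom
      rw [Finset.sum_congr rfl fun l _ => by rw [← pow_add]]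
    rw [h2]
    have h3 : ∑ m ∈ range k, (∑ l, (w l : ℂ) * x l ^ (k - m)) * G m =
        ∑ m ∈ range k, mom w x (k - m) * G m := rfl
    have h4 : ∑ m ∈ range i, (∑ l, (w l : ℂ) * x l ^ (i - m)) * H m =
        ∑ m ∈ range i, mom w x (i - m) * H m := rfl
    rw [h3, h4]
    have h5 := hIDA (2 * p) (mom w x) G H k i hG hH
    unfold al
    set S := ∑ m ∈ range (i + 1), G (k + m) * H (i - m)
    set T := ∑ m ∈ range k, ∑ r ∈ range i, mom w x ((k - m) + (i - r)) * G m * H r
    set U := ∑ m ∈ range k, mom w x (k - m) * G m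
    set W := ∑ m ∈ range i, mom w x (i - m) * H m
    have hU : (p : ℂ) * (2 * U) = k * G k := by rw [hGk]; ring
    have hW : (p : ℂ) * (2 * W) = -(i * H i) := by rw [hHi]; ring
    have h6 : (p : ℂ) * (G k * H i + 2 * H i * U + 2 * G k * W + 4 * T - ((p : ℂ) + k) / p * G k * (((p : ℂ) - i) / p * H i)) =
        p * (G k * H i) + H i * (p * (2 * U)) + G k * (p * (2 * W)) + 2 * (2 * p * T) -
        ((p : ℂ) + k) * (p - i) / p * (G k * H i) := by
      field_simp
      ring
    rw [h6, hU, hW, h5]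
    field_simp
    ring
  · have hc : ∀ l, ((starRingEnd ℂ) (pol H i (x l) - ((p : ℂ) - i) / p * H i)) =
        (starRingEnd ℂ) (pol H i (x l)) - ((p : ℂ) - i) / p * (starRingEnd ℂ) (H i) := by
      intro l
      rw [map_sub, map_mul, map_div₀, map_sub, Complex.conj_natCast, Complex.conj_natCast]
    have hEh' : ∑ l, (w l : ℂ) * (starRingEnd ℂ) (pol H i (x l)) = ((p : ℂ) - i) / p * (starRingEnd ℂ) (H i) := by
      have h := congrArg (starRingEnd ℂ) hEh
      rw [map_sum, map_mul, map_div₀, map_sub, Complex.conj_natCast, Complex.conj_natCast] at h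
      rw [← h]
      apply Finset.sum_congr rfl
      intro l _
      rw [map_mul, Complex.conj_ofReal]
    have h0 : ∑ l, (w l : ℂ) * ((pol G k (x l) - ((p : ℂ) + k) / p * G k) *
        (starRingEnd ℂ) (pol H i (x l) - ((p : ℂ) - i) / p * H i)) =
        ∑ l, (w l : ℂ) * ((pol G k (x l) - ((p : ℂ) + k) / p * G k) *
        ((starRingEnd ℂ) (pol H i (x l)) - ((p : ℂ) - i) / p * (starRingEnd ℂ) (H i))) :=
      Finset.sum_congr rfl fun l _ => by rw [hc l]
    rw [h0, COV_sub w _ _ _ _ hw hEg hEh']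
    have hexp := COV_exp w hw G (fun m => (starRingEnd ℂ) (H m)) k i (fun l m => x l ^ m)
      (fun l m => (starRingEnd ℂ) (x l ^ m))
    have h1 : ∑ l, (w l : ℂ) * (pol G k (x l) * (starRingEnd ℂ) (pol H i (x l))) =
        ∑ l, (w l : ℂ) * ((G k + 2 * ∑ m ∈ range k, x l ^ (k - m) * G m) *
      ((starRingEnd ℂ) (H i) + 2 * ∑ m ∈ range i, (starRingEnd ℂ) (x l ^ (i - m)) * (starRingEnd ℂ) (H m))) := by
      apply Finset.sum_congr rfl
      intro l _
      have h2 : (starRingEnd ℂ) (pol H i (x l)) =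
          (starRingEnd ℂ) (H i) + 2 * ∑ m ∈ range i, (starRingEnd ℂ) (x l ^ (i - m)) * (starRingEnd ℂ) (H m) := by
        unfold pol
        rw [map_add, map_mul, map_sum]
        have h3 : (starRingEnd ℂ) 2 = 2 := Complex.conj_ofNat 2
        rw [h3]
        congr 2
        apply Finset.sum_congr rfl
        intro m _
        rw [map_mul]
      rw [h2]
      rfl
    rw [h1, hexp]
    have hmul : ∀ (l : Fin N) (a b : ℕ), x l ^ a * (starRingEnd ℂ) (x l ^ b) =
        if b ≤ a then x l ^ (a - b) else (starRingEnd ℂ) (x l ^ (b - a)) := by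
      intro l a b
      have hxx : x l * (starRingEnd ℂ) (x l) = 1 := by
        rw [Complex.mul_conj, Complex.normSq_eq_norm_sq, hx1 l]
        norm_num
      split_ifs with hab
      · obtain ⟨c, rfl⟩ := Nat.exists_eq_add_of_le hab
        rw [Nat.add_sub_cancel_left, pow_add, map_pow]
        calc x l ^ b * x l ^ c * (starRingEnd ℂ) (x l) ^ b
            = (x l * (starRingEnd ℂ) (x l)) ^ b * x l ^ c := by rw [mul_pow]; ring
          _ = x l ^ c := by rw [hxx, one_pow, one_mul]
      · obtain ⟨c, rfl⟩ := Nat.exists_eq_add_of_le (le_of_lt (not_le.1 hab))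
        rw [Nat.add_sub_cancel_left, pow_add, map_mul, map_pow, map_pow]
        calc x l ^ a * ((starRingEnd ℂ) (x l) ^ a * (starRingEnd ℂ) (x l) ^ c)
            = (x l * (starRingEnd ℂ) (x l)) ^ a * (starRingEnd ℂ) (x l) ^ c := by rw [mul_pow]; ring
          _ = (starRingEnd ℂ) (x l) ^ c := by rw [hxx, one_pow, one_mul]
    have h2 : ∑ m ∈ range k, ∑ r ∈ range i,
        (∑ l, (w l : ℂ) * (x l ^ (k - m) * (starRingEnd ℂ) (x l ^ (i - r)))) * G m * (starRingEnd ℂ) (H r) =
        ∑ m ∈ range k, ∑ r ∈ range i,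
        (if i - r ≤ k - m then mom w x ((k - m) - (i - r)) else (starRingEnd ℂ) (mom w x ((i - r) - (k - m)))) *
          G m * (starRingEnd ℂ) (H r) := by
      apply Finset.sum_congr rfl
      intro m _
      apply Finset.sum_congr rfl
      intro r _
      congr 2
      split_ifs with hab
      · unfold mom
        apply Finset.sum_congr rfl
        intro l _
        rw [hmul, if_pos hab]
      · unfold mom
        rw [map_sum]
        apply Finset.sum_congr rfl
        intro l _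
        rw [hmul, if_neg hab, map_mul, Complex.conj_ofReal]
    rw [h2]
    have h3 : ∑ m ∈ range k, (∑ l, (w l : ℂ) * x l ^ (k - m)) * G m =
        ∑ m ∈ range k, mom w x (k - m) * G m := rfl
    have h4 : ∑ m ∈ range i, (∑ l, (w l : ℂ) * (starRingEnd ℂ) (x l ^ (i - m))) * (starRingEnd ℂ) (H m) =
        (starRingEnd ℂ) (∑ m ∈ range i, mom w x (i - m) * H m) := by
      rw [map_sum]
      apply Finset.sum_congr rfl
      intro m _
      rw [map_mul]
      unfold mom
      rw [map_sum]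
      congr 1
      apply Finset.sum_congr rfl
      intro l _
      rw [map_mul, Complex.conj_ofReal]
    rw [h3, h4]
    have h5 := hIDB (2 * p) (mom w x) G H k i hmom0 (by
      have : (((2 * p : ℝ)) : ℂ) = 2 * p := by push_cast; ring
      rw [this]; exact hG) (by
      have : ((-(2 * p) : ℝ) : ℂ) = -(2 * p) := by push_cast; ring
      rw [show (-(((2 * p : ℝ)) : ℂ)) = -(2 * p) by push_cast; ring]; exact hH)
    rw [show (((2 * p : ℝ)) : ℂ) = 2 * p by push_cast; ring] at h5
    unfold be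
    set S := ∑ t ∈ Icc 1 (min i k), G (k - t) * (starRingEnd ℂ) (H (i - t))
    set T := ∑ m ∈ range k, ∑ r ∈ range i,
        (if i - r ≤ k - m then mom w x ((k - m) - (i - r)) else (starRingEnd ℂ) (mom w x ((i - r) - (k - m)))) *
          G m * (starRingEnd ℂ) (H r)
    set U := ∑ m ∈ range k, mom w x (k - m) * G m
    have hHc : (i : ℂ) * (starRingEnd ℂ) (H i) = -(2 * p) * (starRingEnd ℂ) (∑ m ∈ range i, mom w x (i - m) * H m) := by
      have h := congrArg (starRingEnd ℂ) hHi
      rw [map_mul, map_mul, map_neg, map_mul, Complex.conj_natCast, Complex.conj_natCast, Complex.conj_ofNat] at h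
      exact h
    set W := (starRingEnd ℂ) (∑ m ∈ range i, mom w x (i - m) * H m)
    set Hc := (starRingEnd ℂ) (H i)
    have hU : (p : ℂ) * (2 * U) = k * G k := by rw [hGk]; ring
    have hW : (p : ℂ) * (2 * W) = -(i * Hc) := by rw [hHc]; ring
    have h6 : (p : ℂ) * (G k * Hc + 2 * Hc * U + 2 * G k * W + 4 * T - ((p : ℂ) + k) / p * G k * (((p : ℂ) - i) / p * Hc)) =
        p * (G k * Hc) + Hc * (p * (2 * U)) + G k * (p * (2 * W)) + 2 * (2 * p * T) -
        ((p : ℂ) + k) * (p - i) / p * (G k * Hc) := by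
      field_simp
      ring
    rw [h6, hU, hW, h5]
    field_simp
    ring

end Pool.Agent.GD
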