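import Pool.Agent.helper65.GD.Spec

set_option autoImplicit false

namespace Pool.Agent.GD

open Finset

theorem VGB_cc_pos (s : ℝ) (hs : 0 < s) (k : ℕ) : 0 < cc s k := by
  unfold cc
  apply Finset.prod_pos
  intro q _
  positivity

theorem VGB_cc_nonneg (s : ℝ) (hs : 0 ≤ s) (k : ℕ) : 0 ≤ cc s k := by
  unfold cc
  apply Finset.prod_nonneg
  intro q _
  positivity

theorem VGB_cc_succ (s : ℝ) (k : ℕ) : cc s (k + 1) * (k + 1) = cc s k * (s + k) := by
  unfold cc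
  rw [Finset.prod_range_succ]
  have h : ((k : ℝ) + 1) ≠ 0 := by positivity
  field_simp

theorem VGB_cc_shift (s : ℝ) (k : ℕ) :
    cc (s + 2) k * (s * (s + 1)) = cc s (k + 1) * ((k + 1) * (s + (k + 1))) := by
  induction k with
  | zero =>
    have h := VGB_cc_succ s 0
    have h0 : ∀ t : ℝ, cc t 0 = 1 := fun t => by unfold cc; simp
    rw [h0] at h ⊢
    push_cast at h ⊢
    linear_combination -(s + 1) * h
  | succ k ih =>
    have h1 := VGB_cc_succ (s + 2) k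
    have h2 := VGB_cc_succ s (k + 1)
    push_cast at h2 ⊢
    have h3 : ((k : ℝ) + 1) ≠ 0 := by positivity
    apply mul_left_cancel₀ h3
    linear_combination (s * (s + 1)) * h1 + (s + 2 + k) * ih - ((k : ℝ) + 1) * (s + (k + 1 + 1)) * h2

theorem VGB (hEGM : EGM_stmt) (hPAA : PAA_stmt) (hPBB : PBB_stmt) (hPCC : PCC_stmt) (hPDD : PDD_stmt) :
    VGB_stmt := by
  intro p N w x G k hp hk hat hG
  obtain ⟨hw0, hw1, hx1⟩ := hat
  have hp0 : (0 : ℝ) < p := by exact_mod_cast hp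
  have hw : ∑ l, (w l : ℂ) = 1 := by exact_mod_cast hw1
  have hpC : (p : ℂ) ≠ 0 := by exact_mod_cast (by omega : p ≠ 0)
  have hEg : ∑ l, (w l : ℂ) * pol G k (x l) = ((p : ℂ) + k) / p * G k := by
    have h := hEGM (2 * p) N w x G k ⟨hw0, hw1, hx1⟩ hG
    rw [div_mul_eq_mul_div, eq_div_iff hpC]
    linear_combination h / 2
  -- weights
  set s : Fin N → ℝ := fun l => 2 * p * w l with hs
  have hsum : ∑ l, s l = 2 * p := by
    rw [hs, ← Finset.mul_sum, hw1, mul_one]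
  have hs0 : ∀ l, 0 ≤ s l := fun l => mul_nonneg (by positivity) (hw0 l)
  have hSmu : ∀ m, (2 * p : ℂ) * mom w x m = ∑ l, (s l : ℂ) * x l ^ m := by
    intro m
    unfold mom
    rw [Finset.mul_sum]
    apply Finset.sum_congr rfl
    intro l _
    rw [hs]
    push_cast
    ring
  have hGk := hPBB N s x (2 * p) (mom w x) G hSmu hG
  have hc := hPCC N s k
  rw [hsum] at hc
  set c := cc (2 * p) k with hcdef
  have hcpos : 0 < c := VGB_cc_pos _ (by positivity) k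
  have hwt0 : ∀ a : Fin N →₀ ℕ, 0 ≤ wt s a := by
    intro a
    unfold wt
    apply Finset.prod_nonneg
    intro l _
    exact VGB_cc_nonneg _ (hs0 l) _
  have hmon : ∀ a : Fin N →₀ ℕ, ‖mon x a‖ = 1 := by
    intro a
    unfold mon
    rw [norm_prod]
    apply Finset.prod_eq_one
    intro l _
    rw [norm_pow, hx1 l, one_pow]
  have hGle : ‖G k‖ ≤ c := by
    rw [hGk k, ← hc]
    refine le_trans (norm_sum_le _ _) (Finset.sum_le_sum fun a _ => ?_)
    rw [norm_mul, hmon, mul_one, Complex.norm_real, Real.norm_of_nonneg (hwt0 a)]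
  refine ⟨hGle, ?_⟩
  set u : Fin N → ℂ := fun l => pol G k (x l) - ((p : ℂ) + k) / p * G k with hu
  have hwu : ∑ l, (w l : ℂ) * u l = 0 := by
    rw [hu]
    simp_rw [mul_sub]
    rw [Finset.sum_sub_distrib, hEg, ← Finset.sum_mul, hw, one_mul, sub_self]
  set η : Fin N → ℂ := fun l => (starRingEnd ℂ) (u l) with hη
  have hwη : ∑ l, (w l : ℂ) * η l = 0 := by
    have h := congrArg (starRingEnd ℂ) hwu
    rw [map_sum, map_zero] at h
    rw [← h]
    apply Finset.sum_congr rfl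
    intro l _
    rw [map_mul, Complex.conj_ofReal]
  have hsη : ∑ l, (s l : ℂ) * η l = 0 := by
    have h : ∑ l, (s l : ℂ) * η l = 2 * p * ∑ l, (w l : ℂ) * η l := by
      rw [Finset.mul_sum]
      apply Finset.sum_congr rfl
      intro l _
      rw [hs]
      push_cast
      ring
    rw [h, hwη, mul_zero]
  obtain ⟨hD1, hD2⟩ := hPDD N s η k hk hsη
  set ψ : (Fin N →₀ ℕ) → ℂ := fun a => ∑ l, η l * (a l : ℂ) with hψ
  set V : ℝ := ∑ l, w l * ‖u l‖ ^ 2 with hV
  have hV0 : 0 ≤ V := Finset.sum_nonneg fun l _ => mul_nonneg (hw0 l) (by positivity)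
  -- first moment
  have hM : ∑ a ∈ ix N k, (wt s a : ℂ) * mon x a * ψ a = p * V := by
    have h1 : ∑ a ∈ ix N k, (wt s a : ℂ) * mon x a * ψ a =
        ∑ l, η l * ∑ a ∈ ix N k, (wt s a : ℂ) * (a l : ℂ) * mon x a := by
      rw [hψ]
      simp_rw [Finset.mul_sum]
      rw [Finset.sum_comm]
      apply Finset.sum_congr rfl
      intro l _
      apply Finset.sum_congr rfl
      intro a _
      ring
    rw [h1]
    have h2 : ∀ l, η l * ∑ a ∈ ix N k, (wt s a : ℂ) * (a l : ℂ) * mon x a =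
        p * ((w l : ℂ) * (‖u l‖ ^ 2 : ℝ)) + p * (((p : ℂ) + k) / p * G k - G k) * ((w l : ℂ) * η l) := by
      intro l
      rw [hPAA N s x l k]
      have h3 : ∑ m ∈ range k, x l ^ (k - m) * ∑ a ∈ ix N m, (wt s a : ℂ) * mon x a =
          ∑ m ∈ range k, x l ^ (k - m) * G m := by
        apply Finset.sum_congr rfl
        intro m _
        rw [← hGk m]
      rw [h3]
      have h4 : 2 * ∑ m ∈ range k, x l ^ (k - m) * G m = u l + (((p : ℂ) + k) / p * G k - G k) := by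
        rw [hu]
        show _ = pol G k (x l) - ((p : ℂ) + k) / p * G k + (((p : ℂ) + k) / p * G k - G k)
        unfold pol
        ring
      have h5 : η l * u l = ((‖u l‖ ^ 2 : ℝ) : ℂ) := by
        rw [hη]
        show (starRingEnd ℂ) (u l) * u l = _
        rw [mul_comm, Complex.mul_conj, Complex.normSq_eq_norm_sq]
      have h6 : (s l : ℂ) = 2 * p * w l := by rw [hs]; push_cast; ring
      rw [h6]
      linear_combination (η l * p * w l) * h4 + (p * w l : ℂ) * h5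
    rw [Finset.sum_congr rfl fun l _ => h2 l, Finset.sum_add_distrib, ← Finset.mul_sum, ← Finset.mul_sum,
      hwη, mul_zero, add_zero, hV]
    push_cast
    rfl
  -- centred
  set g0 : ℂ := G k / c with hg0
  have hcC : (c : ℂ) ≠ 0 := by exact_mod_cast hcpos.ne'
  have hM2 : ∑ a ∈ ix N k, (wt s a : ℂ) * ((mon x a - g0) * ψ a) = p * V := by
    have h1 : ∀ a ∈ ix N k, (wt s a : ℂ) * ((mon x a - g0) * ψ a) =
        (wt s a : ℂ) * mon x a * ψ a - g0 * ((wt s a : ℂ) * ψ a) := by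
      intro a _; ring
    rw [Finset.sum_congr rfl h1, Finset.sum_sub_distrib, ← Finset.mul_sum, hM]
    have h2 : ∑ a ∈ ix N k, (wt s a : ℂ) * ψ a = 0 := hD1
    rw [h2, mul_zero, sub_zero]
  have hQ1 : ∑ a ∈ ix N k, wt s a * ‖mon x a - g0‖ ^ 2 = c - ‖G k‖ ^ 2 / c := by
    have h1 : ∀ a ∈ ix N k, wt s a * ‖mon x a - g0‖ ^ 2 =
        wt s a * (1 + ‖g0‖ ^ 2) - 2 * ((wt s a : ℂ) * mon x a * (starRingEnd ℂ) g0).re := by
      intro a _
      rw [← Complex.normSq_eq_norm_sq (mon x a - g0), Complex.normSq_sub, Complex.normSq_eq_norm_sq,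
        Complex.normSq_eq_norm_sq, hmon a, mul_assoc, Complex.re_ofReal_mul]
      ring
    rw [Finset.sum_congr rfl h1, Finset.sum_sub_distrib, ← Finset.sum_mul, hc, ← Finset.mul_sum,
      ← Complex.re_sum, ← Finset.sum_mul, ← hGk k]
    have h2 : G k * (starRingEnd ℂ) g0 = ((‖G k‖ ^ 2 / c : ℝ) : ℂ) := by
      rw [hg0, map_div₀, Complex.conj_ofReal, ← mul_div_assoc, Complex.mul_conj, Complex.normSq_eq_norm_sq]
      push_cast
      ring
    have h3 : ‖g0‖ ^ 2 = ‖G k‖ ^ 2 / c ^ 2 := by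
      rw [hg0, norm_div, Complex.norm_real, Real.norm_of_nonneg hcpos.le, div_pow]
    rw [h2, h3, Complex.ofReal_re]
    field_simp
    ring
  have hQ2 : ∑ a ∈ ix N k, wt s a * ‖ψ a‖ ^ 2 = cc (2 * p + 2) (k - 1) * (2 * p * V) := by
    have h1 : ∑ a ∈ ix N k, wt s a * ‖ψ a‖ ^ 2 = cc (∑ l, s l + 2) (k - 1) * ∑ l, s l * ‖η l‖ ^ 2 := hD2
    have h6 : ∑ l, s l * ‖η l‖ ^ 2 = 2 * p * V := by
      rw [hV, Finset.mul_sum]
      apply Finset.sum_congr rfl
      intro l _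
      have h7 : ‖η l‖ = ‖u l‖ := by
        rw [hη]
        exact RCLike.norm_conj (u l)
      rw [h7, hs]
      ring
    rw [h1, hsum, h6]
  -- Cauchy-Schwarz
  have hCS : (p * V) ^ 2 ≤ (∑ a ∈ ix N k, wt s a * ‖mon x a - g0‖ ^ 2) * ∑ a ∈ ix N k, wt s a * ‖ψ a‖ ^ 2 := by
    have h1 : p * V ≤ ∑ a ∈ ix N k, (Real.sqrt (wt s a) * ‖mon x a - g0‖) * (Real.sqrt (wt s a) * ‖ψ a‖) := by
      have h2 : ‖∑ a ∈ ix N k, (wt s a : ℂ) * ((mon x a - g0) * ψ a)‖ = p * V := by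
        rw [hM2]
        have h3 : ((p : ℂ) * (V : ℂ)) = ((p * V : ℝ) : ℂ) := by push_cast; ring
        rw [h3, Complex.norm_real, Real.norm_of_nonneg (by positivity)]
      rw [← h2]
      refine le_trans (norm_sum_le _ _) (le_of_eq (Finset.sum_congr rfl fun a _ => ?_))
      rw [norm_mul, norm_mul, Complex.norm_real, Real.norm_of_nonneg (hwt0 a)]
      have h4 := Real.mul_self_sqrt (hwt0 a)
      calc wt s a * (‖mon x a - g0‖ * ‖ψ a‖) =
          (Real.sqrt (wt s a) * Real.sqrt (wt s a)) * (‖mon x a - g0‖ * ‖ψ a‖) := by rw [h4]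
        _ = _ := by ring
    have h2 := Finset.sum_mul_sq_le_sq_mul_sq (ix N k) (fun a => Real.sqrt (wt s a) * ‖mon x a - g0‖)
      (fun a => Real.sqrt (wt s a) * ‖ψ a‖)
    have h3 : ∀ (z : (Fin N →₀ ℕ) → ℝ), ∑ a ∈ ix N k, (Real.sqrt (wt s a) * z a) ^ 2 =
        ∑ a ∈ ix N k, wt s a * z a ^ 2 := by
      intro z
      apply Finset.sum_congr rfl
      intro a _
      rw [mul_pow, Real.sq_sqrt (hwt0 a)]
    rw [h3, h3] at h2
    exact le_trans (pow_le_pow_left₀ (by positivity) h1 2) h2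
  rw [hQ1, hQ2] at hCS
  -- numbers
  obtain ⟨k', rfl⟩ : ∃ k', k = k' + 1 := ⟨k - 1, by omega⟩
  have hshift := VGB_cc_shift (2 * p) k'
  rw [Nat.add_sub_cancel] at hCS
  rw [← hcdef] at hshift
  have hsq : ‖G (k' + 1)‖ ^ 2 ≤ c ^ 2 := pow_le_pow_left₀ (norm_nonneg _) hGle 2
  rcases hV0.eq_or_lt with hV' | hV'
  · rw [← hV']
    apply mul_nonneg
    · positivity
    · linarith
  · have h1 : (p : ℝ) ^ 2 * V ≤ (c - ‖G (k' + 1)‖ ^ 2 / c) * (cc (2 * p + 2) k' * (2 * p)) := by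
      have h2 : ((p : ℝ) ^ 2 * V) * V ≤ ((c - ‖G (k' + 1)‖ ^ 2 / c) * (cc (2 * p + 2) k' * (2 * p))) * V := by
        calc ((p : ℝ) ^ 2 * V) * V = (p * V) ^ 2 := by ring
          _ ≤ _ := hCS
          _ = _ := by ring
      exact le_of_mul_le_mul_right h2 hV'
    have h3 : cc (2 * p + 2) k' * (2 * p) = c * (((k' : ℝ) + 1) * (2 * p + (k' + 1))) / (2 * p + 1) := by
      rw [eq_div_iff (by positivity)]
      linear_combination hshift
    rw [h3] at h1
    have h4 : (c - ‖G (k' + 1)‖ ^ 2 / c) * (c * (((k' : ℝ) + 1) * (2 * p + (k' + 1))) / (2 * p + 1)) =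
        (c ^ 2 - ‖G (k' + 1)‖ ^ 2) * (((k' : ℝ) + 1) * (2 * p + (k' + 1))) / (2 * p + 1) := by
      field_simp
    rw [h4] at h1
    have h5 : ((k' + 1 : ℕ) : ℝ) * (2 * p + ((k' + 1 : ℕ) : ℝ)) / (p ^ 2 * (2 * p + 1)) * (c ^ 2 - ‖G (k' + 1)‖ ^ 2) =
        ((c ^ 2 - ‖G (k' + 1)‖ ^ 2) * (((k' : ℝ) + 1) * (2 * p + (k' + 1))) / (2 * p + 1)) / p ^ 2 := by
      push_cast
      field_simp
    rw [h5, le_div_iff₀ (by positivity)]
    linarith

end Pool.Agent.GD
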