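import Pool.Agent.helper65.GD.Spec

set_option autoImplicit false

namespace Pool.Agent.GD

open Finset

theorem INT_swap (p : ℕ) (F : ℕ → ℕ → ℂ) :
    ∑ t ∈ range (p + 1), ∑ j ∈ range (p - t + 1), F t j =
      ∑ j ∈ range (p + 1), ∑ t ∈ range (p - j + 1), F t j := by
  apply Finset.sum_comm'
  intro t j
  simp only [mem_range]
  constructor
  · rintro ⟨h1, h2⟩
    constructor <;> omega
  · rintro ⟨h1, h2⟩
    constructor <;> omega

theorem INT_swap2 (p k : ℕ) (F : ℕ → ℕ → ℂ) :
    ∑ t ∈ Icc 1 (min p k), ∑ j ∈ range (p - t + 1), F t j =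
      ∑ j ∈ range (p + 1), ∑ t ∈ Icc 1 (min (p - j) k), F t j := by
  apply Finset.sum_comm'
  intro t j
  simp only [mem_range, mem_Icc]
  constructor
  · rintro ⟨⟨h1, h2⟩, h3⟩
    have h4 : t ≤ p := le_trans h2 (min_le_left _ _)
    have h5 : t ≤ k := le_trans h2 (min_le_right _ _)
    refine ⟨⟨h1, le_min (by omega) h5⟩, by omega⟩
  · rintro ⟨⟨h1, h2⟩, h3⟩
    have h4 : t ≤ p - j := le_trans h2 (min_le_left _ _)
    have h5 : t ≤ k := le_trans h2 (min_le_right _ _)
    refine ⟨⟨h1, le_min (by omega) h5⟩, by omega⟩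

theorem INT_b (b f G H : ℕ → ℂ)
    (hGH : ∀ n, ∑ m ∈ range (n + 1), G m * H (n - m) = if n = 0 then 1 else 0)
    (hf : ∀ n, f n = ∑ m ∈ range (n + 1), b m * G (n - m)) (q : ℕ) :
    b q = ∑ j ∈ range (q + 1), f j * H (q - j) := by
  have h1 : PowerSeries.mk G * PowerSeries.mk H = 1 := by
    ext n
    rw [PowerSeries.coeff_mul, Finset.Nat.sum_antidiagonal_eq_sum_range_succ
      (fun i j => PowerSeries.coeff i (PowerSeries.mk G) * PowerSeries.coeff j (PowerSeries.mk H)),
      PowerSeries.coeff_one]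
    simp only [PowerSeries.coeff_mk]
    exact hGH n
  have h2 : PowerSeries.mk f = PowerSeries.mk b * PowerSeries.mk G := by
    ext n
    rw [PowerSeries.coeff_mul, Finset.Nat.sum_antidiagonal_eq_sum_range_succ
      (fun i j => PowerSeries.coeff i (PowerSeries.mk b) * PowerSeries.coeff j (PowerSeries.mk G))]
    simp only [PowerSeries.coeff_mk]
    exact hf n
  have h3 : PowerSeries.mk b = PowerSeries.mk f * PowerSeries.mk H := by
    rw [h2, mul_assoc, h1, mul_one]
  have h4 := congrArg (PowerSeries.coeff q) h3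
  rw [PowerSeries.coeff_mul, Finset.Nat.sum_antidiagonal_eq_sum_range_succ
      (fun i j => PowerSeries.coeff i (PowerSeries.mk f) * PowerSeries.coeff j (PowerSeries.mk H))] at h4
  simp only [PowerSeries.coeff_mk] at h4
  exact h4

theorem INT_range_Icc (p : ℕ) (F : ℕ → ℂ) (h0 : F 0 = 0) :
    ∑ j ∈ range (p + 1), F j = ∑ j ∈ Icc 1 p, F j := by
  rw [Finset.sum_range_succ', h0, add_zero]
  rw [Finset.range_eq_Ico, Finset.sum_Ico_add' F 0 p 1]
  rfl

theorem INT : INT_stmt := by
  intro p k b f G H hp hk hb hGH hf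
  obtain ⟨hb0, hb1, hb2⟩ := hb
  have hbq := INT_b b f G H hGH hf
  have hf0 : f 0 = 0 := by
    rw [hf 0]
    simp [hb0]
  -- first part
  have hA : ∑ q ∈ range (p + 1), b q * G (p + k - q) =
      ∑ j ∈ Icc 1 p, (∑ t ∈ range (p - j + 1), G (k + t) * H (p - j - t)) * f j := by
    have e1 : ∑ q ∈ range (p + 1), b q * G (p + k - q) =
        ∑ t ∈ range (p + 1), b (p - t) * G (k + t) := by
      rw [← Finset.sum_range_reflect]
      apply Finset.sum_congr rfl
      intro t ht
      rw [mem_range] at ht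
      have h1 : p + 1 - 1 - t = p - t := by omega
      have h2 : p + k - (p - t) = k + t := by omega
      rw [h1, h2]
    rw [e1]
    have e2 : ∀ t ∈ range (p + 1), b (p - t) * G (k + t) =
        ∑ j ∈ range (p - t + 1), f j * H (p - t - j) * G (k + t) := by
      intro t _
      rw [hbq (p - t), Finset.sum_mul]
    rw [Finset.sum_congr rfl e2, INT_swap p (fun t j => f j * H (p - t - j) * G (k + t))]
    rw [← INT_range_Icc p (fun j => (∑ t ∈ range (p - j + 1), G (k + t) * H (p - j - t)) * f j)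
      (by rw [hf0, mul_zero])]
    apply Finset.sum_congr rfl
    intro j _
    rw [Finset.sum_mul]
    apply Finset.sum_congr rfl
    intro t _
    rw [Nat.sub_right_comm p t j]
    ring
  have hB : ∑ m ∈ Icc 1 (min p k), b (p + m) * G (k - m) =
      ∑ j ∈ Icc 1 p, (∑ t ∈ Icc 1 (min (p - j) k), G (k - t) * (starRingEnd ℂ) (H (p - j - t))) *
        (starRingEnd ℂ) (f j) := by
    have e2 : ∀ t ∈ Icc 1 (min p k), b (p + t) * G (k - t) =
        ∑ j ∈ range (p - t + 1), (starRingEnd ℂ) (f j) * (starRingEnd ℂ) (H (p - t - j)) * G (k - t) := by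
      intro t ht
      rw [mem_Icc] at ht
      have h4 : t ≤ p := le_trans ht.2 (min_le_left _ _)
      have h5 : p + t = 2 * p - (p - t) := by omega
      rw [h5, hb2 (p - t) (by omega), hbq (p - t), map_sum, Finset.sum_mul]
      apply Finset.sum_congr rfl
      intro j _
      rw [map_mul]
    rw [Finset.sum_congr rfl e2,
      INT_swap2 p k (fun t j => (starRingEnd ℂ) (f j) * (starRingEnd ℂ) (H (p - t - j)) * G (k - t))]
    rw [← INT_range_Icc p (fun j => (∑ t ∈ Icc 1 (min (p - j) k),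
      G (k - t) * (starRingEnd ℂ) (H (p - j - t))) * (starRingEnd ℂ) (f j))
      (by rw [hf0, map_zero, mul_zero])]
    apply Finset.sum_congr rfl
    intro j _
    rw [Finset.sum_mul]
    apply Finset.sum_congr rfl
    intro t _
    rw [Nat.sub_right_comm p t j]
    ring
  have hC : ∑ m ∈ Icc 1 k, b (p + m) * G (k - m) = ∑ m ∈ Icc 1 (min p k), b (p + m) * G (k - m) := by
    symm
    apply Finset.sum_subset
    · intro m hm
      rw [mem_Icc] at hm ⊢
      exact ⟨hm.1, le_trans hm.2 (min_le_right _ _)⟩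
    · intro m hm hm2
      rw [mem_Icc] at hm hm2
      have h1 : p < m := by
        by_contra h
        exact hm2 ⟨hm.1, le_min (by omega) hm.2⟩
      rw [hb1 (p + m) (by omega), zero_mul]
  have hD : f (p + k) = ∑ q ∈ range (p + 1), b q * G (p + k - q) + ∑ m ∈ Icc 1 k, b (p + m) * G (k - m) := by
    rw [hf (p + k)]
    have h1 : p + k + 1 = (p + 1) + k := by ring
    rw [h1, Finset.sum_range_add]
    congr 1
    rw [Finset.range_eq_Ico, Finset.sum_congr rfl (g := fun m => b (p + (m + 1)) * G (k - (m + 1)))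
      (fun m hm => by
        have h2 : p + 1 + m = p + (m + 1) := by ring
        have h3 : p + k - (p + (m + 1)) = k - (m + 1) := by omega
        rw [h2, h3])]
    rw [Finset.sum_Ico_add' (fun m => b (p + m) * G (k - m)) 0 k 1]
    rfl
  -- b p is real
  have hE : ∑ j ∈ Icc 1 p, (H (p - j) * f j - (starRingEnd ℂ) (H (p - j)) * (starRingEnd ℂ) (f j)) = 0 := by
    have h1 : b p = (starRingEnd ℂ) (b p) := by
      have h2 := hb2 p (by omega)
      have h3 : 2 * p - p = p := by omega
      rw [h3] at h2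
      exact h2
    have h4 : b p = ∑ j ∈ Icc 1 p, H (p - j) * f j := by
      rw [hbq p, INT_range_Icc p (fun j => f j * H (p - j)) (by rw [hf0, zero_mul])]
      apply Finset.sum_congr rfl
      intro j _
      ring
    have h5 : (starRingEnd ℂ) (b p) = ∑ j ∈ Icc 1 p, (starRingEnd ℂ) (H (p - j)) * (starRingEnd ℂ) (f j) := by
      rw [h4, map_sum]
      apply Finset.sum_congr rfl
      intro j _
      rw [map_mul]
    rw [Finset.sum_sub_distrib, ← h4, ← h5, ← h1, sub_self]
  rw [hD, hC, hA, hB]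
  have hF : ∑ j ∈ Icc 1 p, (al p k (p - j) G H * f j + be p k (p - j) G H * (starRingEnd ℂ) (f j)) =
      (∑ j ∈ Icc 1 p, (∑ t ∈ range (p - j + 1), G (k + t) * H (p - j - t)) * f j) +
      (∑ j ∈ Icc 1 p, (∑ t ∈ Icc 1 (min (p - j) k), G (k - t) * (starRingEnd ℂ) (H (p - j - t))) *
        (starRingEnd ℂ) (f j)) -
      (k : ℂ) / (2 * (p + k)) * G k *
      ∑ j ∈ Icc 1 p, (H (p - j) * f j - (starRingEnd ℂ) (H (p - j)) * (starRingEnd ℂ) (f j)) := by
    rw [Finset.mul_sum, ← Finset.sum_add_distrib, ← Finset.sum_sub_distrib]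
    apply Finset.sum_congr rfl
    intro j _
    unfold al be
    ring
  rw [hF, hE, mul_zero, sub_zero]

end Pool.Agent.GD
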